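import Pool.Agent.Helper28.Euler.Final

/-!
# An amenable group of smooth diffeomorphisms of the plane with nonzero Euler class (MP_4dd439_gt, Q1)

Full negative answer: `n = 1`, even for `C^∞` actions.  The group contains the dilation `F` by a
large `R`, a diffeomorphism `k` supported in `‖z‖ < R` all of whose nonzero powers displace the
disc `D = {‖z‖ ≤ 2}`, a full twist `c` in the annulus `1 ≤ ‖z‖ ≤ 2`, and the locally finite
product `S` of the `F^n [c, k] F^(-n)`, `n ≥ 0`.  One has `[F, S] = [k, c]`, but the lifts of the
two sides to the universal cover differ by the generator of the centre.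
-/

namespace Pool.Agent.Results.MP_4dd439_gt.AmenableEuler

open Pool.Agent.Helper28.Euler.Defs

/-- There is an amenable group acting on `ℝ²` by orientation preserving `C^∞` diffeomorphisms
whose Euler class in `H²(G; ℝ)` is well defined and nonzero. -/
theorem result : ∃ (G : Type) (_ : Group G) (ρ : G →* (ℂ ≃ₜ ℂ)),
    IsAmenable G ∧ IsSmoothOriented ρ ∧ (∃! ε, IsEulerClass ρ ε) ∧
      ∀ ε, IsEulerClass ρ ε → ε ≠ 0 :=
  final

end Pool.Agent.Results.MP_4dd439_gt.AmenableEuler
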